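import Mathlib
import Pool.Agent.MP_c44838_an.Defs

section

namespace Pool.Agent.MP_c44838_an

open Matrix

section MU

variable {B : Type*} [CStarAlgebra B]
variable {α β γ : Type*} [Fintype α] [DecidableEq α] [Fintype β] [DecidableEq β]
  [Fintype γ] [DecidableEq γ]

/-- matrix units -/
structure IsMU (e : α → α → B) : Prop where
  mul_eq : ∀ a b c d, e a b * e c d = if b = c then e a d else 0
  star_eq : ∀ a b, star (e a b) = e b a
  sum_eq : ∑ a, e a a = 1

/-- matrix units of a homomorphism -/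
noncomputable def mu (φ : Matrix α α ℂ →⋆ₐ[ℂ] B) (a b : α) : B := φ (Matrix.single a b 1)

lemma isMU_mu (φ : Matrix α α ℂ →⋆ₐ[ℂ] B) : IsMU (mu φ) where
  mul_eq a b c d := by
    unfold mu
    rw [← map_mul]
    split_ifs with h
    · subst h; simp
    · rw [Matrix.single_mul_single_of_ne _ _ _ _ h]; simp
  star_eq a b := by
    unfold mu
    rw [← map_star]
    congr 1
    ext i j
    simp [Matrix.single_apply, and_comm]
  sum_eq := by
    unfold mu
    rw [← map_sum, ← map_one φ]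
    congr 1
    ext i j
    rw [Matrix.sum_apply, Finset.sum_eq_single i]
    · simp [Matrix.single_apply, Matrix.one_apply]
    · intro b _ hb
      simp [hb]
    · simp

lemma hom_eq_sum (φ : Matrix α α ℂ →⋆ₐ[ℂ] B) (x : Matrix α α ℂ) :
    φ x = ∑ a, ∑ b, x a b • mu φ a b := by
  conv_lhs => rw [Matrix.matrix_eq_sum_single x]
  simp only [map_sum, mu]
  refine Finset.sum_congr rfl fun a _ => Finset.sum_congr rfl fun b _ => ?_
  rw [← map_smul]
  congr 1
  simp

/-- the homomorphism given by matrix units -/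
noncomputable def IsMU.toHom {e : α → α → B} (h : IsMU e) : Matrix α α ℂ →⋆ₐ[ℂ] B where
  toFun x := ∑ a, ∑ b, x a b • e a b
  map_one' := by
    simp only [Matrix.one_apply, ite_smul, one_smul, zero_smul, Finset.sum_ite_eq,
      Finset.mem_univ, if_true]
    exact h.sum_eq
  map_mul' x y := by
    simp only [Matrix.mul_apply, Finset.sum_smul]
    rw [Finset.sum_mul]
    refine Finset.sum_congr rfl fun a _ => ?_
    rw [Finset.sum_mul, Finset.sum_comm]
    refine Finset.sum_congr rfl fun b _ => ?_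
    rw [Finset.mul_sum]
    symm
    rw [Finset.sum_eq_single b]
    · rw [Finset.mul_sum]
      refine Finset.sum_congr rfl fun c _ => ?_
      rw [smul_mul_smul_comm, h.mul_eq]; simp
    · intro c _ hc
      rw [Finset.mul_sum]
      refine Finset.sum_eq_zero fun d _ => ?_
      rw [smul_mul_smul_comm, h.mul_eq]; simp [hc.symm]
    · simp
  map_zero' := by simp
  map_add' x y := by
    simp only [Matrix.add_apply, add_smul, Finset.sum_add_distrib]
  commutes' r := by
    simp only [Matrix.algebraMap_matrix_apply, ite_smul, zero_smul, Finset.sum_ite_eq,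
      Finset.mem_univ, if_true, Algebra.algebraMap_self, RingHom.id_apply]
    rw [← Finset.smul_sum, h.sum_eq, Algebra.algebraMap_eq_smul_one]
  map_star' x := by
    simp only [star_sum, star_smul, h.star_eq, Matrix.star_apply]
    rw [Finset.sum_comm]

lemma IsMU.toHom_apply {e : α → α → B} (h : IsMU e) (x : Matrix α α ℂ) :
    h.toHom x = ∑ a, ∑ b, x a b • e a b := rfl

lemma IsMU.mu_toHom {e : α → α → B} (h : IsMU e) (a b : α) : mu h.toHom a b = e a b := by
  unfold mu
  rw [h.toHom_apply]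
  simp only [Matrix.single_apply, ite_smul, one_smul, zero_smul]
  rw [Finset.sum_eq_single a, Finset.sum_eq_single b] <;> simp +contextual [eq_comm]

lemma range_le_iff (φ : Matrix α α ℂ →⋆ₐ[ℂ] B) (R : StarSubalgebra ℂ B) :
    φ.range ≤ R ↔ ∀ a b, mu φ a b ∈ R := by
  constructor
  · intro h a b
    exact h ⟨_, rfl⟩
  · rintro h _ ⟨x, rfl⟩
    change φ x ∈ R
    rw [hom_eq_sum]
    exact sum_mem fun a _ => sum_mem fun b _ => SMulMemClass.smul_mem _ (h a b)

lemma IsMU.prod {e : α → α → B} {f : β → β → B} (he : IsMU e) (hf : IsMU f)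
    (hc : ∀ a b c d, e a b * f c d = f c d * e a b) :
    IsMU (fun (p q : α × β) => e p.1 q.1 * f p.2 q.2) where
  mul_eq p q r s := by
    have : e p.1 q.1 * f p.2 q.2 * (e r.1 s.1 * f r.2 s.2)
        = (e p.1 q.1 * e r.1 s.1) * (f p.2 q.2 * f r.2 s.2) := by
      rw [mul_assoc, ← mul_assoc (f p.2 q.2), ← hc, mul_assoc, mul_assoc]
    rw [this, he.mul_eq, hf.mul_eq]
    by_cases h1 : q.1 = r.1 <;> by_cases h2 : q.2 = r.2 <;> simp [h1, h2, Prod.ext_iff]
  star_eq p q := by
    rw [star_mul, he.star_eq, hf.star_eq, hc]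
  sum_eq := by
    rw [Fintype.sum_prod_type]
    simp only [← Finset.mul_sum, hf.sum_eq, mul_one, he.sum_eq]

lemma IsMU.reindex {e : α → α → B} (he : IsMU e) (g : β ≃ α) :
    IsMU (fun p q => e (g p) (g q)) where
  mul_eq p q r s := by simp [he.mul_eq]
  star_eq p q := he.star_eq _ _
  sum_eq := by rw [← he.sum_eq]; exact Equiv.sum_comp g (fun a => e a a)

lemma IsMU.coarsen {e : (α × β) → (α × β) → B} (he : IsMU e) :
    IsMU (fun a b => ∑ c, e (a, c) (b, c)) where
  mul_eq p q r s := by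
    simp only [Finset.sum_mul, Finset.mul_sum, he.mul_eq, Prod.mk.injEq]
    split_ifs with h
    · simp [h]
    · simp [h]
  star_eq p q := by simp only [star_sum, he.star_eq]
  sum_eq := by rw [← he.sum_eq, Fintype.sum_prod_type]

lemma IsMU.norm_le {e : α → α → B} (he : IsMU e) (a b : α) : ‖e a b‖ ≤ 1 := by
  have h1 : star (e a b) * e a b = e b b := by rw [he.star_eq, he.mul_eq]; simp
  have h2 : star (e b b) * e b b = e b b := by rw [he.star_eq, he.mul_eq]; simp
  have h3 := CStarRing.norm_star_mul_self (x := e a b)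
  have h4 := CStarRing.norm_star_mul_self (x := e b b)
  rw [h1] at h3
  rw [h2] at h4
  have h5 : ‖e b b‖ ≤ 1 := by
    by_contra hh
    push Not at hh
    nlinarith
  nlinarith [norm_nonneg (e a b)]

/-- tensor product of two commuting matrix algebras -/
lemma exists_tensor {a b : ℕ} (φ : Matrix (Fin a) (Fin a) ℂ →⋆ₐ[ℂ] B)
    (ψ : Matrix (Fin b) (Fin b) ℂ →⋆ₐ[ℂ] B) (hc : ∀ x y, φ x * ψ y = ψ y * φ x) :
    ∃ θ : Matrix (Fin (a * b)) (Fin (a * b)) ℂ →⋆ₐ[ℂ] B, θ.range = φ.range ⊔ ψ.range := by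
  have h := ((isMU_mu φ).prod (isMU_mu ψ) (fun _ _ _ _ => hc _ _)).reindex finProdFinEquiv.symm
  refine ⟨h.toHom, le_antisymm ?_ (sup_le ?_ ?_)⟩
  · rw [range_le_iff]
    intro p q
    rw [h.mu_toHom]
    exact mul_mem ((le_sup_left : φ.range ≤ _) ⟨_, rfl⟩) ((le_sup_right : ψ.range ≤ _) ⟨_, rfl⟩)
  · rw [range_le_iff]
    intro p q
    have : mu φ p q = ∑ c, mu h.toHom (finProdFinEquiv (p, c)) (finProdFinEquiv (q, c)) := by
      simp only [h.mu_toHom, Equiv.symm_apply_apply, ← Finset.mul_sum, (isMU_mu ψ).sum_eq, mul_one]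
    rw [this]
    exact sum_mem fun c _ => ⟨_, rfl⟩
  · rw [range_le_iff]
    intro p q
    have : mu ψ p q = ∑ c, mu h.toHom (finProdFinEquiv (c, p)) (finProdFinEquiv (c, q)) := by
      simp only [h.mu_toHom, Equiv.symm_apply_apply, ← Finset.sum_mul, (isMU_mu φ).sum_eq, one_mul]
    rw [this]
    exact sum_mem fun c _ => ⟨_, rfl⟩

/-- a matrix algebra whose size divides -/
lemma exists_of_dvd {a b : ℕ} (hab : a ∣ b) (φ : Matrix (Fin b) (Fin b) ℂ →⋆ₐ[ℂ] B) :
    ∃ θ : Matrix (Fin a) (Fin a) ℂ →⋆ₐ[ℂ] B, θ.range ≤ φ.range := by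
  obtain ⟨c, rfl⟩ := hab
  have h := ((isMU_mu φ).reindex finProdFinEquiv).coarsen
  refine ⟨h.toHom, ?_⟩
  rw [range_le_iff]
  intro p q
  rw [h.mu_toHom]
  exact sum_mem fun c _ => ⟨_, rfl⟩

end MU

end Pool.Agent.MP_c44838_an

end

section

namespace Pool.Agent.MP_c44838_an

open Matrix

section Coef

variable {B : Type*} [CStarAlgebra B]
variable {α β : Type*} [Fintype α] [DecidableEq α] [Fintype β] [DecidableEq β]

/-- coefficients with respect to matrix units -/
noncomputable def coef (e : α → α → B) (a b : α) (x : B) : B := ∑ f, e f a * x * e b f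

omit [DecidableEq α] in
lemma coef_add (e : α → α → B) (a b : α) (x y : B) :
    coef e a b (x + y) = coef e a b x + coef e a b y := by
  simp only [coef, mul_add, add_mul, Finset.sum_add_distrib]

omit [DecidableEq α] in
lemma coef_sub (e : α → α → B) (a b : α) (x y : B) :
    coef e a b (x - y) = coef e a b x - coef e a b y := by
  simp only [coef, mul_sub, sub_mul, Finset.sum_sub_distrib]

omit [DecidableEq α] in
lemma coef_smul (e : α → α → B) (a b : α) (r : ℂ) (x : B) :
    coef e a b (r • x) = r • coef e a b x := by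
  simp only [coef, mul_smul_comm, smul_mul_assoc, Finset.smul_sum]

omit [DecidableEq α] in
lemma coef_sum {ι : Type*} (s : Finset ι) (e : α → α → B) (a b : α) (x : ι → B) :
    coef e a b (∑ i ∈ s, x i) = ∑ i ∈ s, coef e a b (x i) := by
  simp only [coef, Finset.mul_sum, Finset.sum_mul]
  rw [Finset.sum_comm]

variable {e : α → α → B}

lemma coef_mul (he : IsMU e) (a b : α) (x y : B) :
    coef e a b (x * y) = ∑ c, coef e a c x * coef e c b y := by
  have h1 : ∀ c, coef e a c x * coef e c b y = ∑ f, e f a * x * e c c * y * e b f := by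
    intro c
    unfold coef
    rw [Finset.sum_mul]
    refine Finset.sum_congr rfl fun f _ => ?_
    rw [Finset.mul_sum, Finset.sum_eq_single f]
    · have : e c f * e f c = e c c := by rw [he.mul_eq]; simp
      rw [← this]; simp only [mul_assoc]
    · intro g _ hg
      have : e c f * e g c = 0 := by rw [he.mul_eq]; simp [hg.symm]
      calc e f a * x * e c f * (e g c * y * e b g)
          = e f a * x * (e c f * e g c) * y * e b g := by simp only [mul_assoc]
        _ = 0 := by rw [this]; simp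
    · simp
  simp only [h1]
  rw [Finset.sum_comm]
  unfold coef
  refine Finset.sum_congr rfl fun f _ => ?_
  rw [← Finset.sum_mul, ← Finset.sum_mul, ← Finset.mul_sum, he.sum_eq]
  simp only [mul_assoc, one_mul]

lemma coef_star (he : IsMU e) (a b : α) (x : B) :
    star (coef e a b x) = coef e b a (star x) := by
  simp only [coef, star_sum, star_mul, he.star_eq, mul_assoc]

lemma coef_one (he : IsMU e) (a b : α) : coef e a b 1 = if a = b then 1 else 0 := by
  simp only [coef, mul_one, he.mul_eq]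
  split_ifs
  · exact he.sum_eq
  · simp

lemma coef_unit (he : IsMU e) (a b c d : α) :
    coef e a b (e c d) = if a = c ∧ d = b then 1 else 0 := by
  simp only [coef, he.mul_eq]
  by_cases h1 : a = c
  · by_cases h2 : d = b
    · simp [h1, h2, he.mul_eq, he.sum_eq]
    · simp [h1, h2, he.mul_eq]
  · simp [h1]

lemma coef_left {w : B} (hw : ∀ c d, w * e c d = e c d * w) (a b : α) (x : B) :
    coef e a b (w * x) = w * coef e a b x := by
  simp only [coef, Finset.mul_sum]
  refine Finset.sum_congr rfl fun f _ => ?_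
  rw [← mul_assoc, ← hw]; simp only [mul_assoc]

lemma coef_right {w : B} (hw : ∀ c d, w * e c d = e c d * w) (a b : α) (x : B) :
    coef e a b (x * w) = coef e a b x * w := by
  simp only [coef, Finset.sum_mul]
  refine Finset.sum_congr rfl fun f _ => ?_
  rw [mul_assoc _ (e b f) w, ← hw]; simp only [mul_assoc]

/-- the coefficient homomorphism -/
noncomputable def coefHom (he : IsMU e) : B →⋆ₐ[ℂ] Matrix α α B where
  toFun x := Matrix.of fun a b => coef e a b x
  map_one' := by ext a b; simp [coef_one he, Matrix.one_apply]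
  map_mul' x y := by ext a b; simp [coef_mul he, Matrix.mul_apply]
  map_zero' := by ext a b; simp [coef]
  map_add' x y := by ext a b; simp [coef_add]
  commutes' r := by
    ext a b
    rw [Algebra.algebraMap_eq_smul_one, Algebra.algebraMap_eq_smul_one]
    simp [coef_smul, coef_one he, Matrix.one_apply]
  map_star' x := by ext a b; simp [coef_star he, Matrix.star_apply]

lemma coefHom_apply (he : IsMU e) (x : B) (a b : α) : coefHom he x a b = coef e a b x := rfl

lemma norm_coef_le (he : IsMU e) (a b : α) (x : B) : ‖coef e a b x‖ ≤ ‖x‖ := by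
  letI := CStarAlgebra.spectralOrder B
  haveI := CStarAlgebra.spectralOrderedRing B
  let Φ : B →⋆ₐ[ℂ] CStarMatrix α α B := coefHom he
  have h1 : ‖Φ x‖ ≤ ‖x‖ := NonUnitalStarAlgHom.norm_apply_le Φ x
  have h2 : ‖Φ x a b‖ ≤ ‖Φ x‖ := CStarMatrix.norm_entry_le_norm
  exact h2.trans h1

lemma continuous_coef (e : α → α → B) (a b : α) : Continuous (coef e a b) := by
  unfold coef
  fun_prop

/-- the elements all of whose coefficients lie in `R` -/
def coefIn (he : IsMU e) (R : StarSubalgebra ℂ B) : StarSubalgebra ℂ B where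
  carrier := {x | ∀ a b, coef e a b x ∈ R}
  mul_mem' := by
    intro x y hx hy a b
    rw [coef_mul he]
    exact sum_mem fun c _ => mul_mem (hx _ _) (hy _ _)
  add_mem' := by
    intro x y hx hy a b
    rw [coef_add]
    exact add_mem (hx _ _) (hy _ _)
  algebraMap_mem' := by
    intro r a b
    rw [Algebra.algebraMap_eq_smul_one, coef_smul, coef_one he]
    refine SMulMemClass.smul_mem _ ?_
    split_ifs
    · exact one_mem _
    · exact zero_mem _
  star_mem' := by
    intro x hx a b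
    have := star_mem (hx b a)
    rwa [coef_star he] at this

lemma mem_coefIn (he : IsMU e) (R : StarSubalgebra ℂ B) (x : B) :
    x ∈ coefIn he R ↔ ∀ a b, coef e a b x ∈ R := Iff.rfl

lemma isClosed_coefIn (he : IsMU e) (R : StarSubalgebra ℂ B) (hR : IsClosed (R : Set B)) :
    IsClosed (coefIn he R : Set B) := by
  have : (coefIn he R : Set B) = ⋂ a, ⋂ b, coef e a b ⁻¹' (R : Set B) := by
    ext x; simp [mem_coefIn]
  rw [this]
  exact isClosed_iInter fun a => isClosed_iInter fun b => hR.preimage (continuous_coef e a b)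

lemma unit_mem_coefIn (he : IsMU e) (R : StarSubalgebra ℂ B) (c d : α) : e c d ∈ coefIn he R := by
  intro a b
  rw [coef_unit he]
  split_ifs
  · exact one_mem _
  · exact zero_mem _

lemma comm_mem_coefIn (he : IsMU e) (R : StarSubalgebra ℂ B) {w : B} (hwR : w ∈ R)
    (hw : ∀ c d, w * e c d = e c d * w) : w ∈ coefIn he R := by
  intro a b
  rw [← mul_one w, coef_left hw, coef_one he]
  refine mul_mem hwR ?_
  split_ifs
  · exact one_mem _
  · exact zero_mem _

/-- averaging operator -/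
noncomputable def avg (e : α → α → B) (x : B) : B :=
  ((Fintype.card α : ℂ)⁻¹) • ∑ b, coef e b b x

omit [DecidableEq α] in
lemma avg_sub (e : α → α → B) (x y : B) : avg e (x - y) = avg e x - avg e y := by
  simp only [avg, coef_sub, Finset.sum_sub_distrib, smul_sub]

omit [DecidableEq α] in
lemma avg_smul (e : α → α → B) (r : ℂ) (x : B) : avg e (r • x) = r • avg e x := by
  simp only [avg, coef_smul, ← Finset.smul_sum]
  rw [smul_comm]

omit [DecidableEq α] in
lemma avg_sum {ι : Type*} (s : Finset ι) (e : α → α → B) (x : ι → B) :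
    avg e (∑ i ∈ s, x i) = ∑ i ∈ s, avg e (x i) := by
  simp only [avg, coef_sum, ← Finset.smul_sum]
  rw [Finset.sum_comm]

lemma norm_avg_le (he : IsMU e) (x : B) : ‖avg e x‖ ≤ ‖x‖ := by
  unfold avg
  rw [norm_smul, norm_inv, Complex.norm_natCast]
  have h1 : ‖∑ b, coef e b b x‖ ≤ Fintype.card α * ‖x‖ := by
    refine (norm_sum_le _ _).trans ?_
    refine (Finset.sum_le_sum fun b _ => norm_coef_le he b b x).trans ?_
    simp
  rcases Nat.eq_zero_or_pos (Fintype.card α) with h | h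
  · simp [h]
  · have : (0 : ℝ) < Fintype.card α := by exact_mod_cast h
    rw [inv_mul_le_iff₀ this]
    exact h1

lemma avg_left {w : B} (hw : ∀ c d, w * e c d = e c d * w) (x : B) :
    avg e (w * x) = w * avg e x := by
  simp only [avg, coef_left hw, ← Finset.mul_sum, mul_smul_comm]

lemma avg_right {w : B} (hw : ∀ c d, w * e c d = e c d * w) (x : B) :
    avg e (x * w) = avg e x * w := by
  simp only [avg, coef_right hw, ← Finset.sum_mul, smul_mul_assoc]

lemma avg_star (he : IsMU e) (x : B) : star (avg e x) = avg e (star x) := by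
  simp only [avg, star_smul, star_sum, coef_star he]
  simp

lemma IsMU.card_ne_zero [Nontrivial B] (he : IsMU e) : Fintype.card α ≠ 0 := by
  intro h
  have : IsEmpty α := Fintype.card_eq_zero_iff.mp h
  have h2 := he.sum_eq
  simp at h2

lemma avg_one [Nontrivial B] (he : IsMU e) : avg e 1 = 1 := by
  have : (Fintype.card α : ℂ) ≠ 0 := by exact_mod_cast he.card_ne_zero
  simp only [avg, coef_one he, if_true, Finset.sum_const, Finset.card_univ]
  rw [← Nat.cast_smul_eq_nsmul ℂ, smul_smul, inv_mul_cancel₀ this, one_smul]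

lemma avg_of_comm [Nontrivial B] (he : IsMU e) {w : B} (hw : ∀ c d, w * e c d = e c d * w) :
    avg e w = w := by
  rw [← mul_one w, avg_left hw, avg_one he]

lemma avg_trace_unit (he : IsMU e) (c d : α) (x : B) :
    avg e (e c d * x) = avg e (x * e c d) := by
  unfold avg
  congr 1
  have h1 : ∑ b, coef e b b (e c d * x) = ∑ f, e f d * x * e c f := by
    rw [Finset.sum_eq_single c]
    · unfold coef
      refine Finset.sum_congr rfl fun f _ => ?_
      rw [← mul_assoc, he.mul_eq]; simp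
    · intro b _ hb
      unfold coef
      refine Finset.sum_eq_zero fun f _ => ?_
      rw [← mul_assoc, he.mul_eq]; simp [hb]
    · simp
  have h2 : ∑ b, coef e b b (x * e c d) = ∑ f, e f d * x * e c f := by
    rw [Finset.sum_eq_single d]
    · unfold coef
      refine Finset.sum_congr rfl fun f _ => ?_
      rw [mul_assoc, mul_assoc, he.mul_eq]; simp [mul_assoc]
    · intro b _ hb
      unfold coef
      refine Finset.sum_eq_zero fun f _ => ?_
      rw [mul_assoc, mul_assoc, he.mul_eq]; simp [hb.symm]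
    · simp
  rw [h1, h2]

lemma avg_trace (θ : Matrix α α ℂ →⋆ₐ[ℂ] B) {y : B} (hy : y ∈ θ.range) (x : B) :
    avg (mu θ) (y * x) = avg (mu θ) (x * y) := by
  obtain ⟨z, rfl⟩ := hy
  change avg (mu θ) (θ z * x) = avg (mu θ) (x * θ z)
  rw [hom_eq_sum]
  simp only [Finset.sum_mul, Finset.mul_sum, avg_sum, smul_mul_assoc, mul_smul_comm, avg_smul,
    avg_trace_unit (isMU_mu θ)]

lemma avg_avg [Nontrivial B] (θ : Matrix α α ℂ →⋆ₐ[ℂ] B) {f : β → β → B} (hf : IsMU f)
    (hfθ : ∀ p q, f p q ∈ θ.range) (x : B) :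
    avg (mu θ) (avg f x) = avg (mu θ) x := by
  have hc : (Fintype.card β : ℂ) ≠ 0 := by exact_mod_cast hf.card_ne_zero
  have h1 : ∀ b g, avg (mu θ) (f g b * x * f b g) = avg (mu θ) (x * f b b) := by
    intro b g
    rw [mul_assoc, avg_trace θ (hfθ _ _), mul_assoc, hf.mul_eq]; simp
  have h2 : avg f x = ((Fintype.card β : ℂ)⁻¹) • ∑ b, ∑ g, f g b * x * f b g := rfl
  rw [h2, avg_smul, avg_sum]
  simp only [avg_sum, h1, Finset.sum_const, Finset.card_univ]
  rw [← Finset.smul_sum, ← avg_sum, ← Finset.mul_sum, hf.sum_eq, mul_one,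
    ← Nat.cast_smul_eq_nsmul ℂ, smul_smul, inv_mul_cancel₀ hc, one_smul]

lemma avg_mem (he : IsMU e) (R : StarSubalgebra ℂ B) {x : B} (hx : x ∈ coefIn he R) :
    avg e x ∈ R :=
  SMulMemClass.smul_mem _ (sum_mem fun b _ => hx b b)

end Coef

end Pool.Agent.MP_c44838_an

end

section

namespace Pool.Agent.MP_c44838_an

open Matrix

/-- finite-dimensional divisibility from approximate matrix units -/
lemma fd_dvd {E : Type*} [NormedAddCommGroup E] [NormedSpace ℂ E] [FiniteDimensional ℂ E]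
    {β : Type*} [Fintype β] [DecidableEq β] (P : E →L[ℂ] E) (V W : β → E →L[ℂ] E)
    (hP : P * P = P) (hW : ∀ a, P * W a = W a) (η : ℝ)
    (h1 : ∀ a b, ‖W a * V b - (if a = b then P else 0)‖ ≤ η) (hη : Fintype.card β * η < 1)
    (h2 : ‖∑ a, V a * W a - 1‖ < 1) : Fintype.card β ∣ Module.finrank ℂ E := by
  set R : Submodule ℂ E := LinearMap.range (P : E →ₗ[ℂ] E) with hR
  have hPR : ∀ w ∈ R, P w = w := by
    rintro _ ⟨z, rfl⟩
    exact congrArg (fun T : E →L[ℂ] E => T z) hP
  have hWR : ∀ a ξ, W a ξ ∈ R := fun a ξ =>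
    ⟨W a ξ, congrArg (fun T : E →L[ℂ] E => T ξ) (hW a)⟩
  let A : E →ₗ[ℂ] (β → R) := LinearMap.pi fun a => LinearMap.codRestrict R (W a : E →ₗ[ℂ] E) (hWR a)
  let Bm : (β → R) →ₗ[ℂ] E := ∑ a, (V a : E →ₗ[ℂ] E) ∘ₗ R.subtype ∘ₗ LinearMap.proj a
  have hBm : ∀ w : β → R, Bm w = ∑ a, V a (w a) := by
    intro w; simp [Bm]
  have hA : Function.Injective A := by
    rw [injective_iff_map_eq_zero]
    intro ξ hξ
    have h3 : ∀ a, W a ξ = 0 := fun a => congrArg Subtype.val (congrFun hξ a)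
    have h4 : (∑ a, V a * W a - 1 : E →L[ℂ] E) ξ = -ξ := by
      simp [h3]
    have h5 := (∑ a, V a * W a - 1 : E →L[ℂ] E).le_opNorm ξ
    rw [h4, norm_neg] at h5
    by_contra hne
    have : 0 < ‖ξ‖ := norm_pos_iff.mpr hne
    nlinarith
  have hB : Function.Injective Bm := by
    rw [injective_iff_map_eq_zero]
    intro w hw
    rw [hBm] at hw
    have h3 : ∀ a, ‖(w a : E)‖ ≤ η * ∑ b, ‖(w b : E)‖ := by
      intro a
      have h4 : ∑ b, (W a * V b - (if a = b then P else 0) : E →L[ℂ] E) (w b) = - (w a : E) := by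
        simp only [ContinuousLinearMap.sub_apply, Finset.sum_sub_distrib,
          ContinuousLinearMap.mul_apply]
        rw [← map_sum, hw, map_zero, Finset.sum_eq_single a]
        · simp [hPR _ (w a).2]
        · intro b _ hb; simp [hb.symm]
        · simp
      rw [← norm_neg, ← h4, Finset.mul_sum]
      refine (norm_sum_le _ _).trans (Finset.sum_le_sum fun b _ => ?_)
      refine (ContinuousLinearMap.le_opNorm _ _).trans ?_
      exact mul_le_mul_of_nonneg_right (h1 a b) (norm_nonneg _)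
    have h4 : ∑ a, ‖(w a : E)‖ ≤ Fintype.card β * (η * ∑ b, ‖(w b : E)‖) := by
      refine (Finset.sum_le_sum fun a _ => h3 a).trans ?_
      simp
    have h5 : 0 ≤ ∑ a, ‖(w a : E)‖ := Finset.sum_nonneg fun _ _ => norm_nonneg _
    have h6 : ∑ a, ‖(w a : E)‖ = 0 := by
      by_contra hne
      have : 0 < ∑ a, ‖(w a : E)‖ := lt_of_le_of_ne h5 (Ne.symm hne)
      nlinarith
    rw [Finset.sum_eq_zero_iff_of_nonneg (fun _ _ => norm_nonneg _)] at h6
    funext a
    exact Subtype.ext (norm_eq_zero.mp (h6 a (Finset.mem_univ _)))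
  have e1 := LinearMap.finrank_le_finrank_of_injective hA
  have e2 := LinearMap.finrank_le_finrank_of_injective hB
  have e3 : Module.finrank ℂ (β → R) = Fintype.card β * Module.finrank ℂ R := by
    rw [Module.finrank_pi_fintype]; simp
  exact ⟨Module.finrank ℂ R, by omega⟩

/-- almost projections are close to projections -/
lemma exists_proj {R : Type*} [CStarAlgebra R] (h : R) (hsa : IsSelfAdjoint h) (η : ℝ)
    (hη0 : 0 ≤ η) (hη : η ≤ 1 / 8) (hh : ‖h * h - h‖ ≤ η) :
    ∃ P : R, star P = P ∧ P * P = P ∧ ‖P - h‖ ≤ 2 * η := by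
  let f : ℝ → ℝ := fun t => max 0 (min 1 (2 * t - 1 / 2))
  have hf : Continuous f := by fun_prop
  have hsp : ∀ t ∈ spectrum ℝ h, |t * t - t| ≤ η := by
    intro t ht
    have h1 := norm_apply_le_norm_cfc (fun t : ℝ => t * t - t) h ht
    rw [cfc_sub _ _ h, cfc_mul _ _ h, cfc_id' ℝ h] at h1
    exact h1.trans hh
  have key : ∀ t ∈ spectrum ℝ h, (f t = 0 ∧ |t| ≤ 2 * η) ∨ (f t = 1 ∧ |1 - t| ≤ 2 * η) := by
    intro t ht
    have h1 := abs_le.mp (hsp t ht)
    by_cases h2 : t ≤ 1 / 2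
    · left
      have h3 : |t| ≤ 2 * η := by
        rw [abs_le]; constructor <;> nlinarith
      refine ⟨?_, h3⟩
      have := (abs_le.mp h3).2
      apply max_eq_left
      exact (min_le_right _ _).trans (by linarith)
    · right
      push Not at h2
      have h3 : |1 - t| ≤ 2 * η := by
        rw [abs_le]; constructor <;> nlinarith
      refine ⟨?_, h3⟩
      have := (abs_le.mp h3).2
      have h4 : min 1 (2 * t - 1 / 2) = 1 := min_eq_left (by linarith)
      simp only [f, h4]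
      norm_num
  refine ⟨cfc f h, (cfc_predicate f h : IsSelfAdjoint _), ?_, ?_⟩
  · rw [← cfc_mul f f h]
    apply cfc_congr
    intro t ht
    rcases key t ht with h1 | h1 <;> simp [h1.1]
  · have : cfc f h - h = cfc (fun t => f t - t) h := by
      rw [cfc_sub _ _ h, cfc_id' ℝ h]
    rw [this]
    apply norm_cfc_le (by linarith)
    intro t ht
    rcases key t ht with h1 | h1
    · simpa [h1.1] using h1.2
    · simpa [h1.1] using h1.2

/-- a character on a commutative closed star subalgebra -/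
lemma exists_char {B : Type*} [CStarAlgebra B] [Nontrivial B] (D : StarSubalgebra ℂ B)
    (hD : IsClosed (D : Set B)) (hc : ∀ x ∈ D, ∀ y ∈ D, x * y = y * x) :
    Nonempty (D →⋆ₐ[ℂ] ℂ) := by
  let inst : CStarAlgebra D := StarSubalgebra.cstarAlgebra D
  let inst2 : CommCStarAlgebra D :=
    { inst with mul_comm := fun x y => Subtype.ext (hc _ x.2 _ y.2) }
  obtain ⟨χ⟩ : Nonempty (WeakDual.characterSpace ℂ D) := inferInstance
  exact ⟨(χ : D →⋆ₐ[ℂ] ℂ)⟩

section Key

variable {B : Type*} [CStarAlgebra B]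
variable {α β : Type*} [Fintype α] [DecidableEq α] [Fintype β] [DecidableEq β]

/-- apply a character to the coefficients -/
noncomputable def charHom {e : α → α → B} (he : IsMU e) (D : StarSubalgebra ℂ B)
    (χ : D →⋆ₐ[ℂ] ℂ) : coefIn he D →⋆ₐ[ℂ] Matrix α α ℂ where
  toFun x := Matrix.of fun a b => χ ⟨coef e a b x, x.2 a b⟩
  map_one' := by
    ext a b
    simp only [OneMemClass.coe_one, coef_one he, of_apply, Matrix.one_apply]
    split_ifs
    · exact map_one χ
    · exact map_zero χ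
  map_mul' x y := by
    ext a b
    simp only [of_apply, Matrix.mul_apply, ← map_mul, ← map_sum]
    congr 1
    apply Subtype.ext
    simp [coef_mul he]
  map_zero' := by
    ext a b
    simp only [ZeroMemClass.coe_zero, of_apply, Matrix.zero_apply]
    rw [← map_zero χ]
    congr 1
    apply Subtype.ext
    simp [coef]
  map_add' x y := by
    ext a b
    simp only [of_apply, Matrix.add_apply, ← map_add]
    congr 1
    apply Subtype.ext
    simp [coef_add]
  commutes' r := by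
    ext a b
    simp only [of_apply, Matrix.algebraMap_matrix_apply]
    split_ifs with h
    · rw [← AlgHomClass.commutes χ r]
      congr 1
      apply Subtype.ext
      simp [Algebra.algebraMap_eq_smul_one, coef_smul, coef_one he, h]
    · rw [← map_zero χ]
      congr 1
      apply Subtype.ext
      simp [Algebra.algebraMap_eq_smul_one, coef_smul, coef_one he, h]
  map_star' x := by
    ext a b
    simp only [of_apply, Matrix.star_apply, ← map_star]
    congr 1
    apply Subtype.ext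
    simp [coef_star he]

lemma approx_mul {u v u' v' : B} {δ : ℝ} (hδ : δ ≤ 1) (hu : ‖u - u'‖ ≤ δ) (hv : ‖v - v'‖ ≤ δ)
    (hu' : ‖u'‖ ≤ 1) (hv' : ‖v'‖ ≤ 1) : ‖u * v - u' * v'‖ ≤ 3 * δ := by
  have h0 : 0 ≤ δ := (norm_nonneg _).trans hu
  have h1 : ‖u‖ ≤ 2 := by
    have := norm_add_le (u - u') u'
    simp only [sub_add_cancel] at this
    linarith
  have h2 : u * v - u' * v' = u * (v - v') + (u - u') * v' := by noncomm_ring
  rw [h2]
  refine (norm_add_le _ _).trans ?_
  have h3 : ‖u * (v - v')‖ ≤ 2 * δ :=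
    (norm_mul_le _ _).trans (mul_le_mul h1 hv (norm_nonneg _) (by norm_num))
  have h4 : ‖(u - u') * v'‖ ≤ δ * 1 :=
    (norm_mul_le _ _).trans (mul_le_mul hu hv' (norm_nonneg _) h0)
  linarith

/-- abstract form of the key lemma -/
lemma dvd_of_approx (R : StarSubalgebra ℂ B) (hR : IsClosed (R : Set B))
    (Λ : R →⋆ₐ[ℂ] Matrix α α ℂ) {x : β → β → B} (hx : IsMU x) (o : β) (δ : ℝ)
    (hδ : 1000 * Fintype.card β * δ ≤ 1) (y : β → B) (hyR : ∀ a, y a ∈ R)
    (hy : ∀ a, ‖y a - x a o‖ ≤ δ) : Fintype.card β ∣ Fintype.card α := by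
  have hδ0 : 0 ≤ δ := (norm_nonneg _).trans (hy o)
  have hn : (1 : ℝ) ≤ Fintype.card β := by
    have : 0 < Fintype.card β := Fintype.card_pos_iff.mpr ⟨o⟩
    exact_mod_cast this
  have hδ1 : 1000 * δ ≤ 1 := by nlinarith
  let inst : CStarAlgebra R := StarSubalgebra.cstarAlgebra R
  have hys : ∀ a, ‖star (y a) - x o a‖ ≤ δ := by
    intro a
    rw [← hx.star_eq, ← star_sub, norm_star]; exact hy a
  have hoo : x o o * x o o = x o o := by rw [hx.mul_eq]; simp
  let h : R := star ⟨y o, hyR o⟩ * ⟨y o, hyR o⟩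
  have hh : ‖(h : B) - x o o‖ ≤ 3 * δ := by
    have := approx_mul (by linarith) (hys o) (hy o) (hx.norm_le _ _) (hx.norm_le _ _)
    rwa [hoo] at this
  have hh2 : ‖h * h - h‖ ≤ 12 * δ := by
    have h1 := approx_mul (by linarith) hh hh (hx.norm_le _ _) (hx.norm_le _ _)
    rw [hoo] at h1
    change ‖(h : B) * h - h‖ ≤ _
    have h2 : (h : B) * h - h = ((h : B) * h - x o o) - (h - x o o) := by abel
    rw [h2]
    refine (norm_sub_le _ _).trans ?_
    linarith
  obtain ⟨P, hPs, hPP, hPh⟩ := exists_proj h (IsSelfAdjoint.star_mul_self _) (12 * δ)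
    (by linarith) (by linarith) hh2
  have hPo : ‖(P : B) - x o o‖ ≤ 27 * δ := by
    have h1 : ‖(P : B) - h‖ ≤ 2 * (12 * δ) := hPh
    have h2 : (P : B) - x o o = ((P : B) - h) + (h - x o o) := by abel
    rw [h2]
    refine (norm_add_le _ _).trans ?_
    linarith
  let v : β → R := fun a => ⟨y a, hyR a⟩ * P
  have hv : ∀ a, ‖(v a : B) - x a o‖ ≤ 81 * δ := by
    intro a
    have := approx_mul (by linarith) ((hy a).trans (by linarith : δ ≤ 27 * δ)) hPo
      (hx.norm_le _ _) (hx.norm_le _ _)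
    rw [hx.mul_eq] at this
    simp only [if_true] at this
    change ‖y a * P - x a o‖ ≤ _
    linarith
  have hvs : ∀ a, ‖star (v a : B) - x o a‖ ≤ 81 * δ := by
    intro a
    rw [← hx.star_eq, ← star_sub, norm_star]; exact hv a
  have h1 : ∀ a b, ‖star (v a) * v b - (if a = b then P else 0)‖ ≤ 270 * δ := by
    intro a b
    have h2 := approx_mul (by linarith) (hvs a) (hv b) (hx.norm_le _ _) (hx.norm_le _ _)
    rw [hx.mul_eq] at h2
    split_ifs at h2 ⊢ with hab
    · change ‖star (v a : B) * v b - P‖ ≤ _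
      have h3 : star (v a : B) * v b - P = (star (v a : B) * v b - x o o) - (P - x o o) := by abel
      rw [h3]
      refine (norm_sub_le _ _).trans ?_
      linarith
    · change ‖star (v a : B) * v b - 0‖ ≤ _
      linarith
  have h2 : ‖∑ a, v a * star (v a) - 1‖ ≤ Fintype.card β * (243 * δ) := by
    have h3 : ((∑ a, v a * star (v a) - 1 : R) : B)
        = ∑ a, ((v a : B) * star (v a : B) - x a a) := by
      rw [Finset.sum_sub_distrib, hx.sum_eq]; simp
    change ‖((∑ a, v a * star (v a) - 1 : R) : B)‖ ≤ _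
    rw [h3]
    refine (norm_sum_le _ _).trans ?_
    have h4 : ∀ a, ‖(v a : B) * star (v a : B) - x a a‖ ≤ 243 * δ := by
      intro a
      have h5 := approx_mul (by linarith) (hv a) (hvs a) (hx.norm_le _ _) (hx.norm_le _ _)
      rw [hx.mul_eq] at h5
      simp only [if_true] at h5
      linarith
    refine (Finset.sum_le_sum fun a _ => h4 a).trans ?_
    simp
  let L : R →⋆ₐ[ℂ] (EuclideanSpace ℂ α →L[ℂ] EuclideanSpace ℂ α) :=
    (Matrix.toEuclideanCLM (n := α) (𝕜 := ℂ) : Matrix α α ℂ →⋆ₐ[ℂ] _).comp Λ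
  have hL : ∀ z : R, ‖L z‖ ≤ ‖z‖ := fun z => NonUnitalStarAlgHom.norm_apply_le L z
  have := fd_dvd (L P) (fun a => L (v a)) (fun a => L (star (v a))) (by rw [← map_mul, hPP])
    (by
      intro a
      rw [← map_mul]
      congr 1
      simp only [v, star_mul, hPs, ← mul_assoc, hPP]) (270 * δ)
    (by
      intro a b
      have h3 : L (star (v a)) * L (v b) - (if a = b then L P else 0)
          = L (star (v a) * v b - (if a = b then P else 0)) := by
        split_ifs <;> simp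
      rw [h3]
      exact (hL _).trans (h1 a b))
    (by nlinarith)
    (by
      have h3 : ∑ a, L (v a) * L (star (v a)) - 1 = L (∑ a, v a * star (v a) - 1) := by
        simp
      rw [h3]
      refine (hL _).trans_lt (h2.trans_lt ?_)
      nlinarith)
  simpa using this

/-- the key lemma -/
lemma key_dvd [Nontrivial B] {e : α → α → B} (he : IsMU e) {x : β → β → B} (hx : IsMU x) (o : β)
    (δ : ℝ) (hδ : 1000 * Fintype.card β * δ ≤ 1) (y : β → B) (hy : ∀ a, ‖y a - x a o‖ ≤ δ)
    (Z : Set B) (hZs : ∀ z ∈ Z, star z ∈ Z) (hZc : ∀ z ∈ Z, ∀ w ∈ Z, z * w = w * z)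
    (hyZ : ∀ a c d, coef e c d (y a) ∈ Z) : Fintype.card β ∣ Fintype.card α := by
  let D : StarSubalgebra ℂ B := StarSubalgebra.centralizer ℂ (StarSubalgebra.centralizer ℂ Z)
  have hD : IsClosed (D : Set B) := Set.isClosed_centralizer _
  have hZ1 : Z ⊆ (StarSubalgebra.centralizer ℂ Z : Set B) := by
    intro z hz
    rw [SetLike.mem_coe, StarSubalgebra.mem_centralizer_iff]
    intro g hg
    exact ⟨hZc _ hg _ hz, hZc _ (hZs _ hg) _ hz⟩
  have hD1 : ∀ d ∈ D, d ∈ StarSubalgebra.centralizer ℂ Z := by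
    intro d hd
    rw [StarSubalgebra.mem_centralizer_iff] at hd ⊢
    intro g hg
    exact hd g (hZ1 hg)
  have hDc : ∀ a ∈ D, ∀ b ∈ D, a * b = b * a := by
    intro a ha b hb
    rw [StarSubalgebra.mem_centralizer_iff] at hb
    exact (hb a (hD1 a ha)).1
  have hZD : ∀ z ∈ Z, z ∈ D := by
    intro z hz
    rw [StarSubalgebra.mem_centralizer_iff]
    intro g hg
    have hg' := star_mem hg
    rw [SetLike.mem_coe, StarSubalgebra.mem_centralizer_iff] at hg
    rw [StarSubalgebra.mem_centralizer_iff] at hg'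
    exact ⟨(hg z hz).1.symm, (hg' z hz).1.symm⟩
  obtain ⟨χ⟩ := exists_char D hD hDc
  exact dvd_of_approx (coefIn he D) (isClosed_coefIn he D hD) (charHom he D χ) hx o δ hδ y
    (fun a c d => hZD _ (hyZ a c d)) hy

end Key

end Pool.Agent.MP_c44838_an

end

section

namespace Pool.Agent.MP_c44838_an

open Matrix Filter Topology

section Sys

variable {B : Type*} [CStarAlgebra B] {J : Type*} {m : J → ℕ}

/-- pairwise commuting ranges -/
def Comm (ι : ∀ j, Matrix (Fin (m j)) (Fin (m j)) ℂ →⋆ₐ[ℂ] B) : Prop :=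
  ∀ i j : J, i ≠ j → ∀ a b, ι i a * ι j b = ι j b * ι i a

/-- the star subalgebra generated by the factors in `S` -/
noncomputable def BF (ι : ∀ j, Matrix (Fin (m j)) (Fin (m j)) ℂ →⋆ₐ[ℂ] B) (S : Set J) :
    StarSubalgebra ℂ B :=
  StarAlgebra.adjoin ℂ (⋃ j ∈ S, Set.range (ι j))

variable {ι : ∀ j, Matrix (Fin (m j)) (Fin (m j)) ℂ →⋆ₐ[ℂ] B}

lemma BF_le_iff {S : Set J} {R : StarSubalgebra ℂ B} :
    BF ι S ≤ R ↔ ∀ j ∈ S, ∀ a, ι j a ∈ R := by
  unfold BF
  rw [StarAlgebra.adjoin_le_iff]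
  simp [Set.range_subset_iff]

lemma mem_BF {S : Set J} {j : J} (hj : j ∈ S) (a) : ι j a ∈ BF ι S :=
  BF_le_iff.mp le_rfl j hj a

lemma BF_mono {S T : Set J} (h : S ⊆ T) : BF ι S ≤ BF ι T :=
  BF_le_iff.mpr fun _ hj a => mem_BF (h hj) a

lemma BF_univ : BF ι Set.univ = StarAlgebra.adjoin ℂ (⋃ j, Set.range (ι j)) := by
  simp [BF]

lemma comm_closure_BF {S : Set J} {w : B} (hw : ∀ j ∈ S, ∀ a, w * ι j a = ι j a * w) {y : B}
    (hy : y ∈ (BF ι S).topologicalClosure) : w * y = y * w := by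
  have h1 := StarSubalgebra.topologicalClosure_adjoin_le_centralizer_centralizer ℂ _ hy
  rw [StarSubalgebra.mem_centralizer_iff] at h1
  refine (h1 w ?_).1
  rw [SetLike.mem_coe, StarSubalgebra.mem_centralizer_iff]
  intro g hg
  simp only [Set.mem_iUnion, Set.mem_range] at hg
  obtain ⟨j, hj, a, rfl⟩ := hg
  rw [← map_star]
  exact ⟨(hw j hj _).symm, (hw j hj _).symm⟩

lemma comm_BF {S : Set J} {w : B} (hw : ∀ j ∈ S, ∀ a, w * ι j a = ι j a * w) {y : B}
    (hy : y ∈ BF ι S) : w * y = y * w :=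
  comm_closure_BF hw (StarSubalgebra.le_topologicalClosure _ hy)

lemma closure_BF_comm (hc : Comm ι) {S : Set J} {y : B} (hy : y ∈ (BF ι S).topologicalClosure)
    {j : J} (hj : j ∉ S) (a) : y * ι j a = ι j a * y :=
  (comm_closure_BF (fun i hi b => hc j i (fun h => hj (h ▸ hi)) a b) hy).symm

lemma BF_comm (hc : Comm ι) {S : Set J} {y : B} (hy : y ∈ BF ι S)
    {j : J} (hj : j ∉ S) (a) : y * ι j a = ι j a * y :=
  closure_BF_comm hc (StarSubalgebra.le_topologicalClosure _ hy) hj a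

lemma exists_block' (hc : Comm ι) (F : Finset J) :
    ∃ (N : ℕ) (θ : Matrix (Fin N) (Fin N) ℂ →⋆ₐ[ℂ] B), N = ∏ j ∈ F, m j ∧ θ.range = BF ι F := by
  classical
  induction F using Finset.induction_on with
  | empty =>
    have h : IsMU (fun _ _ : Fin 1 => (1 : B)) :=
      ⟨fun a b c d => by simp [Subsingleton.elim b c], fun _ _ => by simp, by simp⟩
    refine ⟨1, h.toHom, by simp, le_antisymm ?_ (BF_le_iff.mpr (by simp))⟩
    rw [range_le_iff]
    intro a b
    rw [h.mu_toHom]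
    exact one_mem _
  | insert j F hj ih =>
    obtain ⟨N, θ, hN, hθ⟩ := ih
    obtain ⟨θ', hθ'⟩ := exists_tensor (ι j) θ (fun x y => by
      have : θ y ∈ BF ι F := hθ ▸ ⟨y, rfl⟩
      exact (BF_comm hc this (by simpa using hj) x).symm)
    refine ⟨m j * N, θ', by rw [Finset.prod_insert hj, hN], ?_⟩
    rw [hθ', hθ]
    refine le_antisymm (sup_le ?_ (BF_mono (by simp))) ?_
    · rintro _ ⟨a, rfl⟩
      exact mem_BF (by simp) a
    · rw [BF_le_iff]
      intro i hi a
      rcases (by simpa using hi : i = j ∨ i ∈ F) with rfl | hi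
      · exact (le_sup_left : (ι i).range ≤ _) ⟨a, rfl⟩
      · exact (le_sup_right : BF ι F ≤ _) (mem_BF (by simpa using hi) a)

lemma exists_block (hc : Comm ι) (F : Finset J) :
    ∃ θ : Matrix (Fin (∏ j ∈ F, m j)) (Fin (∏ j ∈ F, m j)) ℂ →⋆ₐ[ℂ] B, θ.range = BF ι F := by
  obtain ⟨N, θ, rfl, h⟩ := exists_block' hc F
  exact ⟨θ, h⟩

lemma exists_finset_of_mem {S : Set J} {x : B} (hx : x ∈ BF ι S) :
    ∃ G : Finset J, (G : Set J) ⊆ S ∧ x ∈ BF ι G := by
  classical
  unfold BF at hx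
  induction hx using StarAlgebra.adjoin_induction with
  | mem x hx =>
    simp only [Set.mem_iUnion, Set.mem_range] at hx
    obtain ⟨j, hj, a, rfl⟩ := hx
    exact ⟨{j}, by simpa using hj, mem_BF (by simp) a⟩
  | algebraMap r => exact ⟨∅, by simp, algebraMap_mem _ r⟩
  | add x y _ _ hx hy =>
    obtain ⟨F, hF, hx⟩ := hx
    obtain ⟨G, hG, hy⟩ := hy
    exact ⟨F ∪ G, by simp [hF, hG], add_mem (BF_mono (by simp) hx) (BF_mono (by simp) hy)⟩
  | mul x y _ _ hx hy =>
    obtain ⟨F, hF, hx⟩ := hx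
    obtain ⟨G, hG, hy⟩ := hy
    exact ⟨F ∪ G, by simp [hF, hG], mul_mem (BF_mono (by simp) hx) (BF_mono (by simp) hy)⟩
  | star x _ hx =>
    obtain ⟨F, hF, hx⟩ := hx
    exact ⟨F, hF, star_mem hx⟩

lemma exists_approx {S : Set J} {x : B} (hx : x ∈ (BF ι S).topologicalClosure) {ε : ℝ}
    (hε : 0 < ε) : ∃ G : Finset J, (G : Set J) ⊆ S ∧ ∃ u ∈ BF ι G, ‖x - u‖ < ε := by
  have h1 : x ∈ closure (BF ι S : Set B) := hx
  obtain ⟨u, hu, hxu⟩ := Metric.mem_closure_iff.mp h1 ε hε
  obtain ⟨G, hG, hu⟩ := exists_finset_of_mem hu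
  exact ⟨G, hG, u, hu, by rwa [← dist_eq_norm]⟩

lemma BF_le_coefIn (hc : Comm ι) {α : Type*} [Fintype α] [DecidableEq α] {t : Set J}
    (θ : Matrix α α ℂ →⋆ₐ[ℂ] B) (hθ : θ.range = BF ι t) (H : Set J) (R : StarSubalgebra ℂ B)
    (hR : BF ι (H \ t) ≤ R) : BF ι H ≤ coefIn (isMU_mu θ) R := by
  rw [BF_le_iff]
  intro j hj a
  by_cases hjt : j ∈ t
  · have h1 : ι j a ∈ θ.range := hθ ▸ mem_BF hjt a
    refine (range_le_iff θ _).mpr (fun c d => unit_mem_coefIn _ _ c d) h1
  · refine comm_mem_coefIn _ _ (hR (mem_BF (S := H \ t) ⟨hj, hjt⟩ a)) fun c d => ?_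
    have h1 : mu θ c d ∈ BF ι t := by rw [← hθ]; exact ⟨_, rfl⟩
    exact (BF_comm hc h1 hjt a).symm

lemma exists_EE [Nontrivial B] (hc : Comm ι) (hgen : (BF ι Set.univ).topologicalClosure = ⊤)
    (U : Set J) : ∃ EE : B → B, (∀ x y, ‖EE x - EE y‖ ≤ ‖x - y‖) ∧
      (∀ x, EE x ∈ (BF ι Uᶜ).topologicalClosure) ∧
      (∀ w, (∀ j ∈ U, ∀ a, w * ι j a = ι j a * w) →
        ∀ x, EE (w * x) = w * EE x ∧ EE (x * w) = EE x * w) ∧
      (∀ x, star (EE x) = EE (star x)) ∧ EE 1 = 1 := by
  classical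
  choose θ hθ using exists_block hc
  let E : Finset J → B → B := fun F => avg (mu (θ (F.filter (· ∈ U))))
  have hmu : ∀ (F : Finset J) c d, mu (θ F) c d ∈ BF ι F := fun F c d => by
    rw [← hθ F]; exact ⟨_, rfl⟩
  have hE1 : ∀ F x y, ‖E F x - E F y‖ ≤ ‖x - y‖ := by
    intro F x y
    simp only [E]
    rw [← avg_sub]
    exact norm_avg_le (isMU_mu _) _
  have hcomm : ∀ w, (∀ j ∈ U, ∀ a, w * ι j a = ι j a * w) → ∀ (F : Finset J) c d,
      w * mu (θ (F.filter (· ∈ U))) c d = mu (θ (F.filter (· ∈ U))) c d * w := by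
    intro w hw F c d
    refine comm_BF (fun j hj a => hw j ?_ a) (hmu _ c d)
    simp only [Finset.coe_filter, Set.mem_ofPred_eq] at hj
    exact hj.2
  have hE2 : ∀ (G : Finset J), ∀ x ∈ BF ι G, E G x ∈ BF ι Uᶜ := by
    intro G x hx
    refine avg_mem (isMU_mu _) _ (BF_le_coefIn hc _ (hθ _) G _ (BF_mono ?_) hx)
    intro j hj
    simp only [Finset.coe_filter, Set.mem_sdiff, Finset.mem_coe, Set.mem_ofPred_eq, not_and] at hj
    exact hj.2 hj.1
  have hE3 : ∀ (G : Finset J), ∀ x ∈ BF ι G, ∀ F, G ≤ F → E F x = E G x := by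
    intro G x hx F hGF
    have h1 : E F (E G x) = E F x := by
      refine avg_avg _ (isMU_mu _) (fun p q => ?_) x
      rw [hθ]
      refine BF_mono ?_ (hmu _ p q)
      exact_mod_cast Finset.filter_subset_filter _ hGF
    rw [← h1]
    refine avg_of_comm (isMU_mu _) (hcomm _ (fun j hj a => ?_) F)
    exact BF_comm hc (hE2 G x hx) (by simpa using hj) a
  have hall : ∀ x : B, x ∈ (BF ι Set.univ).topologicalClosure := fun x => by
    rw [hgen]; trivial
  have hlim : ∀ x, ∃ y, Tendsto (fun F => E F x) atTop (𝓝 y) := by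
    intro x
    apply cauchySeq_tendsto_of_complete
    rw [Metric.cauchySeq_iff]
    intro ε hε
    obtain ⟨G, -, u, hu, hxu⟩ := exists_approx (hall x) (half_pos hε)
    refine ⟨G, fun F hF F' hF' => ?_⟩
    rw [dist_eq_norm]
    have h1 : E F x - E F' x = (E F x - E F u) - (E F' x - E F' u) := by
      rw [hE3 G u hu F hF, hE3 G u hu F' hF']; abel
    rw [h1]
    refine (norm_sub_le _ _).trans_lt ?_
    have := hE1 F x u
    have := hE1 F' x u
    linarith
  choose EE hEE using hlim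
  have hL : ∀ x y, ‖EE x - EE y‖ ≤ ‖x - y‖ := fun x y =>
    le_of_tendsto' ((hEE x).sub (hEE y)).norm fun F => hE1 F x y
  refine ⟨EE, hL, ?_, ?_, ?_, ?_⟩
  · intro x
    change EE x ∈ closure (BF ι Uᶜ : Set B)
    rw [Metric.mem_closure_iff]
    intro ε hε
    obtain ⟨G, -, u, hu, hxu⟩ := exists_approx (hall x) hε
    have h1 : EE u = E G u := by
      refine tendsto_nhds_unique (hEE u) (tendsto_const_nhds.congr' ?_)
      filter_upwards [eventually_ge_atTop G] with F hF
      exact (hE3 G u hu F hF).symm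
    refine ⟨EE u, h1 ▸ hE2 G u hu, ?_⟩
    rw [dist_eq_norm]
    exact (hL x u).trans_lt hxu
  · intro w hw x
    constructor
    · refine tendsto_nhds_unique (hEE _) (((hEE x).const_mul w).congr fun F => ?_)
      exact (avg_left (hcomm w hw F) x).symm
    · refine tendsto_nhds_unique (hEE _) (((hEE x).mul_const w).congr fun F => ?_)
      exact (avg_right (hcomm w hw F) x).symm
  · intro x
    refine tendsto_nhds_unique ((hEE x).star.congr fun F => ?_) (hEE _)
    exact avg_star (isMU_mu _) x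
  · refine tendsto_nhds_unique (hEE _) (tendsto_const_nhds.congr fun F => ?_)
    exact (avg_one (isMU_mu _)).symm

end Sys

end Pool.Agent.MP_c44838_an

end

section

namespace Pool.Agent.MP_c44838_an

open Cardinal

universe u

lemma mk_finsets_le {J : Type u} (S : Set J) (μ : Cardinal.{u}) (hμ : ℵ₀ ≤ μ) (hS : #S ≤ μ) :
    #{s : Finset J | (s : Set J) ⊆ S} ≤ μ := by
  classical
  have h1 : #{s : Finset J | (s : Set J) ⊆ S} ≤ #(List S) := by
    refine mk_le_of_surjective
      (f := fun l : List S => ⟨(l.map Subtype.val).toFinset, ?_⟩) ?_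
    · intro x hx
      simp only [List.coe_toFinset, List.mem_map, Set.mem_ofPred_eq] at hx
      obtain ⟨y, -, rfl⟩ := hx
      exact y.2
    · rintro ⟨s, hs⟩
      refine ⟨(s.subtype (· ∈ S)).toList, ?_⟩
      apply Subtype.ext
      ext x
      simp only [List.mem_toFinset, List.mem_map, Finset.mem_toList, Finset.mem_subtype]
      constructor
      · rintro ⟨y, hy, rfl⟩; exact hy
      · intro hx; exact ⟨⟨x, hs hx⟩, hx, rfl⟩
  exact h1.trans ((mk_list_le_max _).trans (max_le hμ hS))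

lemma mk_biUnion_countable_le {J K : Type u} (S : Set J) (μ : Cardinal.{u}) (hμ : ℵ₀ ≤ μ)
    (hS : #S ≤ μ) (f : Finset J → Set K) (hf : ∀ s, (f s).Countable) :
    #(⋃ s ∈ {s : Finset J | (s : Set J) ⊆ S}, f s) ≤ μ := by
  refine (mk_biUnion_le _ _).trans ?_
  have h1 := mk_finsets_le S μ hμ hS
  have h2 : ⨆ x : {s : Finset J | (s : Set J) ⊆ S}, #(f x.1) ≤ μ :=
    ciSup_le' fun x => (le_aleph0_iff_set_countable.mpr (hf _)).trans hμ
  exact (mul_le_mul' h1 h2).trans (mul_eq_self hμ).le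

lemma exists_closed {J : Type u} (S₀ : Set J) (μ : Cardinal.{u}) (hμ : ℵ₀ ≤ μ) (hS : #S₀ ≤ μ)
    (f : Finset J → Set J) (hf : ∀ s, (f s).Countable) :
    ∃ S : Set J, S₀ ⊆ S ∧ #S ≤ μ ∧ ∀ s : Finset J, (s : Set J) ⊆ S → f s ⊆ S := by
  classical
  let T : ℕ → Set J := fun r => Nat.rec S₀
    (fun _ X => X ∪ ⋃ s ∈ {s : Finset J | (s : Set J) ⊆ X}, f s) r
  have hT : ∀ r, T (r + 1) = T r ∪ ⋃ s ∈ {s : Finset J | (s : Set J) ⊆ T r}, f s := fun _ => rfl
  have hmono : Monotone T := monotone_nat_of_le_succ fun r => by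
    rw [hT]; exact Set.subset_union_left
  have hcard : ∀ r : ℕ, #(↥(T r)) ≤ μ := by
    intro r
    induction r with
    | zero => exact hS
    | succ r ih =>
      rw [hT]
      refine (mk_union_le _ _).trans ?_
      exact (add_le_add ih (mk_biUnion_countable_le _ μ hμ ih f hf)).trans (add_eq_self hμ).le
  refine ⟨⋃ r, T r, Set.subset_iUnion T 0, ?_, ?_⟩
  · have h1 := mk_iUnion_le_lift T
    simp only [lift_uzero, mk_eq_aleph0, lift_aleph0] at h1
    refine h1.trans ?_
    exact (mul_le_mul' hμ (ciSup_le' hcard)).trans (mul_eq_self hμ).le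
  · intro s hs
    have h1 : ∃ r, (s : Set J) ⊆ T r := by
      induction s using Finset.induction_on with
      | empty => exact ⟨0, by simp⟩
      | insert a s _ ih =>
        simp only [Finset.coe_insert, Set.insert_subset_iff] at hs ⊢
        obtain ⟨r, hr⟩ := ih hs.2
        obtain ⟨r', hr'⟩ := Set.mem_iUnion.mp hs.1
        exact ⟨max r r', hmono (le_max_right _ _) hr', hr.trans (hmono (le_max_left _ _))⟩
    obtain ⟨r, hr⟩ := h1
    refine Set.Subset.trans ?_ (Set.subset_iUnion T (r + 1))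
    rw [hT]
    refine Set.Subset.trans ?_ Set.subset_union_right
    exact Set.subset_biUnion_of_mem (u := f) hr

end Pool.Agent.MP_c44838_an

end

section

namespace Pool.Agent.MP_c44838_an

open Matrix Filter Topology Cardinal

universe u

variable {B : Type*} [CStarAlgebra B]

lemma continuous_hom {α : Type*} [Fintype α] [DecidableEq α] (θ : Matrix α α ℂ →⋆ₐ[ℂ] B) :
    Continuous θ := by
  have : (θ : Matrix α α ℂ → B) = fun x => ∑ a, ∑ b, x a b • mu θ a b := by
    funext x; exact hom_eq_sum θ x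
  rw [this]
  fun_prop

lemma exists_countable_dense_BF {J : Type*} {m : J → ℕ}
    {ι : ∀ j, Matrix (Fin (m j)) (Fin (m j)) ℂ →⋆ₐ[ℂ] B} (hc : Comm ι) (s : Finset J) :
    ∃ c : Set B, c.Countable ∧ (BF ι s : Set B) ⊆ closure c := by
  obtain ⟨θ, hθ⟩ := exists_block hc s
  have : TopologicalSpace.SeparableSpace
      (Matrix (Fin (∏ j ∈ s, m j)) (Fin (∏ j ∈ s, m j)) ℂ) :=
    inferInstanceAs (TopologicalSpace.SeparableSpace
      (Fin (∏ j ∈ s, m j) → Fin (∏ j ∈ s, m j) → ℂ))
  have h1 : TopologicalSpace.IsSeparable (Set.range θ) :=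
    TopologicalSpace.isSeparable_range (continuous_hom θ)
  obtain ⟨c, hc1, hc2⟩ := h1
  refine ⟨c, hc1, ?_⟩
  rw [← hθ]
  exact hc2

lemma exists_countable_support {J : Type*} {m : J → ℕ}
    {ι : ∀ j, Matrix (Fin (m j)) (Fin (m j)) ℂ →⋆ₐ[ℂ] B}
    (hgen : (BF ι Set.univ).topologicalClosure = ⊤) (x : B) :
    ∃ T : Set J, T.Countable ∧ x ∈ (BF ι T).topologicalClosure := by
  have hx : x ∈ (BF ι Set.univ).topologicalClosure := by rw [hgen]; trivial
  have h1 : ∀ r : ℕ, ∃ G : Finset J, ∃ u ∈ BF ι G, ‖x - u‖ < 1 / ((r : ℝ) + 1) := by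
    intro r
    obtain ⟨G, -, h⟩ := exists_approx hx (Nat.one_div_pos_of_nat (n := r))
    exact ⟨G, h⟩
  choose G u hu hxu using h1
  refine ⟨⋃ r, (G r : Set J), Set.countable_iUnion fun r => (G r).countable_toSet, ?_⟩
  change x ∈ closure (BF ι _ : Set B)
  rw [Metric.mem_closure_iff]
  intro ε hε
  obtain ⟨r, hr⟩ := exists_nat_one_div_lt hε
  refine ⟨u r, BF_mono (Set.subset_iUnion (fun r => (G r : Set J)) r) (hu r), ?_⟩
  rw [dist_eq_norm]
  exact (hxu r).trans hr

lemma norm_comm_sub_le (z q e : B) (he : ‖e‖ ≤ 1) :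
    ‖z * e - e * z‖ ≤ ‖q * e - e * q‖ + 2 * ‖z - q‖ := by
  have h1 : z * e - e * z = (q * e - e * q) + ((z - q) * e - e * (z - q)) := by noncomm_ring
  rw [h1]
  refine (norm_add_le _ _).trans ?_
  have h2 := norm_sub_le ((z - q) * e) (e * (z - q))
  have h3 := norm_mul_le (z - q) e
  have h4 := norm_mul_le e (z - q)
  have h5 := norm_nonneg (z - q)
  nlinarith

lemma no_embed_uncountable [Nontrivial B] {J K : Type u} {m : J → ℕ}
    {ι : ∀ j, Matrix (Fin (m j)) (Fin (m j)) ℂ →⋆ₐ[ℂ] B} (hc : Comm ι)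
    (hgen : (BF ι Set.univ).topologicalClosure = ⊤) {n : ℕ}
    (φ : K → Matrix (Fin n) (Fin n) ℂ →⋆ₐ[ℂ] B) (hφ : Comm (m := fun _ => n) φ)
    {p : ℕ} (hp : p.Prime) (hpn : p ∣ n) (μ : Cardinal.{u}) (hμ : ℵ₀ ≤ μ)
    (hS₀ : #{j | p ∣ m j} ≤ μ) (hK : μ < #K) : False := by
  classical
  have hKne : Nonempty K := by
    rw [← mk_ne_zero_iff]
    exact (lt_of_le_of_lt zero_le hK).ne'
  choose c hc1 hc2 using exists_countable_dense_BF hc
  have hκ : ∀ (q : B) (r : ℚ), ∃ β : K,
      (∃ k a b, (r : ℝ) < ‖q * mu (φ k) a b - mu (φ k) a b * q‖) →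
        ∃ a b, (r : ℝ) < ‖q * mu (φ β) a b - mu (φ β) a b * q‖ := by
    intro q r
    by_cases h : ∃ k a b, (r : ℝ) < ‖q * mu (φ k) a b - mu (φ k) a b * q‖
    · obtain ⟨k, hk⟩ := h
      exact ⟨k, fun _ => hk⟩
    · exact ⟨Classical.arbitrary K, fun h' => absurd h' h⟩
  choose κ hκ using hκ
  let Kf : Finset J → Set K := fun s => ⋃ q ∈ c s, Set.range (κ q)
  have hKf : ∀ s, (Kf s).Countable := fun s =>
    (hc1 s).biUnion fun q _ => Set.countable_range _
  choose T hT1 hT2 using exists_countable_support hgen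
  let Jf : K → Set J := fun k => ⋃ a, ⋃ b, T (mu (φ k) a b)
  have hJf : ∀ k, (Jf k).Countable := fun k =>
    Set.countable_iUnion fun a => Set.countable_iUnion fun b => hT1 _
  have hJf2 : ∀ k a, φ k a ∈ (BF ι (Jf k)).topologicalClosure := by
    intro k a
    refine (range_le_iff (φ k) _).mpr (fun a b => ?_) ⟨a, rfl⟩
    refine StarSubalgebra.topologicalClosure_mono (BF_mono ?_) (hT2 _)
    exact Set.subset_iUnion₂ (s := fun a b => T (mu (φ k) a b)) a b
  obtain ⟨S, hS0, hSμ, hScl⟩ := exists_closed {j | p ∣ m j} μ hμ hS₀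
    (fun s => ⋃ k ∈ Kf s, Jf k) (fun s => (hKf s).biUnion fun k _ => hJf k)
  let K0 : Set K := ⋃ s ∈ {s : Finset J | (s : Set J) ⊆ S}, Kf s
  have hK0 : #K0 ≤ μ := mk_biUnion_countable_le S μ hμ hSμ Kf hKf
  obtain ⟨α, hα⟩ : ∃ α, α ∉ K0 := by
    by_contra h
    push Not at h
    have : K0 = Set.univ := Set.eq_univ_of_forall h
    rw [this, mk_univ] at hK0
    exact absurd hK (not_lt.mpr hK0)
  have claim1 : ∀ β ∈ K0, ∀ a, φ β a ∈ (BF ι S).topologicalClosure := by
    intro β hβ a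
    simp only [K0, Set.mem_iUnion, Set.mem_ofPred_eq] at hβ
    obtain ⟨s, hs, hβ⟩ := hβ
    refine StarSubalgebra.topologicalClosure_mono (BF_mono ?_) (hJf2 β a)
    exact (Set.subset_biUnion_of_mem (u := Jf) hβ).trans (hScl s hs)
  have claim2 : ∀ z ∈ (BF ι S).topologicalClosure, (∀ β ∈ K0, ∀ a, z * φ β a = φ β a * z) →
      ∀ k a b, z * mu (φ k) a b = mu (φ k) a b * z := by
    intro z hz hzc k a b
    by_contra hne
    have hρ : 0 < ‖z * mu (φ k) a b - mu (φ k) a b * z‖ := norm_pos_iff.mpr (sub_ne_zero.mpr hne)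
    set ρ := ‖z * mu (φ k) a b - mu (φ k) a b * z‖ with hρdef
    obtain ⟨s, hs, w, hw, hzw⟩ := exists_approx hz (by positivity : 0 < ρ / 16)
    obtain ⟨q, hq, hwq⟩ := Metric.mem_closure_iff.mp (hc2 s hw) (ρ / 16) (by positivity)
    rw [dist_eq_norm] at hwq
    have hzq : ‖z - q‖ < ρ / 8 := by
      have : z - q = (z - w) + (w - q) := by abel
      rw [this]
      refine (norm_add_le _ _).trans_lt ?_
      linarith
    obtain ⟨r, hr1, hr2⟩ := exists_rat_btwn (by linarith : ρ / 4 < 3 * ρ / 4)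
    have h1 := norm_comm_sub_le z q (mu (φ k) a b) ((isMU_mu _).norm_le a b)
    obtain ⟨a', b', h2⟩ := hκ q r ⟨k, a, b, by linarith⟩
    have hβ : κ q r ∈ K0 := by
      simp only [K0, Kf, Set.mem_iUnion, Set.mem_ofPred_eq]
      exact ⟨s, hs, q, hq, r, rfl⟩
    have h3 := norm_comm_sub_le q z (mu (φ (κ q r)) a' b') ((isMU_mu _).norm_le a' b')
    have h4 : z * mu (φ (κ q r)) a' b' - mu (φ (κ q r)) a' b' * z = 0 :=
      sub_eq_zero.mpr (hzc _ hβ _)
    rw [h4, norm_zero, norm_sub_rev q z] at h3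
    linarith
  have hx := isMU_mu (φ α)
  set x := mu (φ α) with hxdef
  have hn : n ≠ 0 := by simpa using hx.card_ne_zero
  have hn' : (0 : ℝ) < n := by exact_mod_cast Nat.pos_of_ne_zero hn
  let o : Fin n := ⟨0, Nat.pos_of_ne_zero hn⟩
  have hall : ∀ x : B, x ∈ (BF ι Set.univ).topologicalClosure := fun x => by
    rw [hgen]; trivial
  have happ : ∀ a, ∃ G : Finset J, ∃ u ∈ BF ι G, ‖x a o - u‖ < 1 / (2000 * n) := by
    intro a
    obtain ⟨G, -, h⟩ := exists_approx (hall (x a o)) (by positivity : (0 : ℝ) < 1 / (2000 * n))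
    exact ⟨G, h⟩
  choose G u hu hxu using happ
  let t : Finset J := (Finset.univ.biUnion G).filter (· ∉ S)
  obtain ⟨θ, hθ⟩ := exists_block hc t
  obtain ⟨EE, hE1, hE2, hE3, hE4, hE5⟩ := exists_EE hc hgen (S ∪ t)ᶜ
  rw [compl_compl] at hE2
  have he := isMU_mu θ
  have hmuθ : ∀ c d, mu θ c d ∈ BF ι t := fun c d => by rw [← hθ]; exact ⟨_, rfl⟩
  have hL1 : ∀ c d y, coef (mu θ) c d (EE y) ∈ (BF ι S).topologicalClosure := by
    intro c d y
    have h1 : BF ι (S ∪ t) ≤ coefIn he (BF ι S).topologicalClosure := by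
      refine BF_le_coefIn hc θ hθ _ _ ((BF_mono ?_).trans (StarSubalgebra.le_topologicalClosure _))
      rintro j ⟨hj | hj, hj'⟩
      · exact hj
      · exact absurd hj hj'
    exact StarSubalgebra.topologicalClosure_minimal h1
      (isClosed_coefIn he _ (StarSubalgebra.isClosed_topologicalClosure _)) (hE2 y) c d
  have hL2 : ∀ w ∈ (BF ι S).topologicalClosure, ∀ y, w * y = y * w → ∀ c d,
      w * coef (mu θ) c d (EE y) = coef (mu θ) c d (EE y) * w := by
    intro w hw y hwy c d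
    have h1 := hE3 w (fun j hj a => closure_BF_comm hc hw (fun h => hj (Or.inl h)) a) y
    have h2 : ∀ c d, w * mu θ c d = mu θ c d * w := by
      intro c d
      refine comm_BF (fun j hj a => closure_BF_comm hc hw ?_ a) (hmuθ c d)
      simp only [t, Finset.coe_filter, Set.mem_ofPred_eq] at hj
      exact hj.2
    rw [← coef_left h2, ← coef_right h2, ← h1.1, ← h1.2, hwy]
  have hdvd := key_dvd he hx o (1 / (1000 * n))
    (by simp only [Fintype.card_fin]; field_simp; rfl) (fun a => EE (x a o))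
    (by
      intro a
      have h1 : EE (u a) = u a := by
        have h2 := (hE3 (u a) (fun j hj b => BF_comm hc (hu a) (fun h => hj ?_) b) 1).1
        · rwa [mul_one, hE5, mul_one] at h2
        · by_cases hjS : j ∈ S
          · exact Or.inl hjS
          · right
            simp only [t, Finset.coe_filter, Set.mem_ofPred_eq, Finset.mem_biUnion]
            exact ⟨⟨a, Finset.mem_univ _, h⟩, hjS⟩
      have h2 : EE (x a o) - x a o = (EE (x a o) - EE (u a)) - (x a o - u a) := by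
        rw [h1]; abel
      rw [h2]
      refine (norm_sub_le _ _).trans ?_
      have h3 := hE1 (x a o) (u a)
      have h4 := hxu a
      have h5 : (1 : ℝ) / (1000 * n) = 1 / (2000 * n) + 1 / (2000 * n) := by
        field_simp; norm_num
      linarith)
    {z | ∃ a b c d, z = coef (mu θ) c d (EE (x a b))}
    (by
      rintro _ ⟨a, b, c, d, rfl⟩
      exact ⟨b, a, d, c, by rw [coef_star he, hE4, hx.star_eq]⟩)
    (by
      rintro _ ⟨a, b, c, d, rfl⟩ _ ⟨a', b', c', d', rfl⟩
      refine hL2 _ (hL1 _ _ _) _ (claim2 _ (hL1 _ _ _) (fun β hβ y => ?_) α a' b') c' d'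
      refine (hL2 _ (claim1 β hβ y) _ ?_ c d).symm
      exact hφ β α (fun h => hα (h ▸ hβ)) _ _)
    (fun a c d => ⟨a, o, c, d, rfl⟩)
  simp only [Fintype.card_fin] at hdvd
  obtain ⟨j, hj, hpj⟩ := (Nat.Prime.prime hp).exists_mem_finset_dvd (hpn.trans hdvd)
  simp only [t, Finset.mem_filter] at hj
  exact hj.2 (hS0 hpj)

lemma dvd_of_MU [Nontrivial B] {J : Type*} {m : J → ℕ}
    {ι : ∀ j, Matrix (Fin (m j)) (Fin (m j)) ℂ →⋆ₐ[ℂ] B} (hc : Comm ι)
    (hgen : (BF ι Set.univ).topologicalClosure = ⊤) {n : ℕ}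
    (φ : Matrix (Fin n) (Fin n) ℂ →⋆ₐ[ℂ] B) : ∃ G : Finset J, n ∣ ∏ j ∈ G, m j := by
  classical
  have hx := isMU_mu φ
  set x := mu φ with hxdef
  have hn : n ≠ 0 := by simpa using hx.card_ne_zero
  have hn' : (0 : ℝ) < n := by exact_mod_cast Nat.pos_of_ne_zero hn
  let o : Fin n := ⟨0, Nat.pos_of_ne_zero hn⟩
  have hall : ∀ x : B, x ∈ (BF ι Set.univ).topologicalClosure := fun x => by
    rw [hgen]; trivial
  have happ : ∀ a, ∃ G : Finset J, ∃ u ∈ BF ι G, ‖x a o - u‖ < 1 / (1000 * n) := by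
    intro a
    obtain ⟨G, -, h⟩ := exists_approx (hall (x a o)) (by positivity : (0 : ℝ) < 1 / (1000 * n))
    exact ⟨G, h⟩
  choose G u hu hxu using happ
  obtain ⟨θ, hθ⟩ := exists_block hc (Finset.univ.biUnion G)
  have he := isMU_mu θ
  have hdvd := key_dvd he hx o (1 / (1000 * n))
    (by simp only [Fintype.card_fin]; field_simp; rfl) u
    (fun a => by rw [norm_sub_rev]; exact (hxu a).le) (BF ι ∅ : Set B)
    (fun z hz => star_mem hz)
    (fun z _ w hw => comm_BF (by simp) hw)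
    (by
      intro a c d
      refine BF_le_coefIn hc θ hθ (G a) _ (BF_mono ?_) (hu a) c d
      rintro j ⟨hj, hj'⟩
      exact hj' (by simpa using ⟨a, hj⟩))
  simp only [Fintype.card_fin] at hdvd
  exact ⟨_, hdvd⟩

lemma no_embed_finite [Nontrivial B] {J K : Type*} [Infinite K] {m : J → ℕ}
    {ι : ∀ j, Matrix (Fin (m j)) (Fin (m j)) ℂ →⋆ₐ[ℂ] B} (hc : Comm ι)
    (hgen : (BF ι Set.univ).topologicalClosure = ⊤) {n : ℕ}
    (φ : K → Matrix (Fin n) (Fin n) ℂ →⋆ₐ[ℂ] B) (hφ : Comm (m := fun _ => n) φ)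
    {p : ℕ} (hp : p.Prime) (hpn : p ∣ n) (hS₀ : {j | p ∣ m j}.Finite) : False := by
  classical
  have hm : ∀ j, m j ≠ 0 := fun j => by simpa using (isMU_mu (ι j)).card_ne_zero
  set M := ∏ j ∈ hS₀.toFinset, m j with hM
  have hM0 : M ≠ 0 := Finset.prod_ne_zero_iff.mpr fun j _ => hm j
  obtain ⟨F, hF⟩ := Infinite.exists_subset_card_eq K M
  obtain ⟨θ, -⟩ := exists_block hφ F
  obtain ⟨G, hG⟩ := dvd_of_MU hc hgen θ
  rw [Finset.prod_const, hF] at hG
  have h1 : p ^ M ∣ ∏ j ∈ G, m j := (pow_dvd_pow_of_dvd hpn M).trans hG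
  rw [← Finset.prod_filter_mul_prod_filter_not G (fun j => p ∣ m j)] at h1
  have h2 : Nat.Coprime (p ^ M) (∏ j ∈ G.filter (fun j => ¬ p ∣ m j), m j) := by
    refine Nat.Coprime.pow_left _ (Nat.Coprime.prod_right fun j hj => ?_)
    exact (Nat.Prime.coprime_iff_not_dvd hp).mpr (Finset.mem_filter.mp hj).2
  have h3 := h2.dvd_of_dvd_mul_right h1
  have h4 : ∏ j ∈ G.filter (fun j => p ∣ m j), m j ∣ M := by
    refine Finset.prod_dvd_prod_of_subset _ _ _ fun j hj => ?_
    simpa using (Finset.mem_filter.mp hj).2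
  have h5 := Nat.le_of_dvd (Nat.pos_of_ne_zero hM0) (h3.trans h4)
  have h6 : M < p ^ M := Nat.lt_pow_self hp.one_lt
  omega

/-- the invariant: the number of factors of size divisible by `p` -/
lemma card_le_of_comm [Nontrivial B] {J K : Type u} [Infinite K] {m : J → ℕ}
    {ι : ∀ j, Matrix (Fin (m j)) (Fin (m j)) ℂ →⋆ₐ[ℂ] B} (hc : Comm ι)
    (hgen : (BF ι Set.univ).topologicalClosure = ⊤) {n : ℕ}
    (φ : K → Matrix (Fin n) (Fin n) ℂ →⋆ₐ[ℂ] B) (hφ : Comm (m := fun _ => n) φ)
    {p : ℕ} (hp : p.Prime) (hpn : p ∣ n) : #K ≤ #{j | p ∣ m j} := by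
  by_contra h
  push Not at h
  by_cases hfin : {j | p ∣ m j}.Finite
  · exact no_embed_finite hc hgen φ hφ hp hpn hfin
  · have : Infinite {j | p ∣ m j} := Set.infinite_coe_iff.mpr hfin
    exact no_embed_uncountable hc hgen φ hφ hp hpn _ (aleph0_le_mk _) le_rfl h

end Pool.Agent.MP_c44838_an

end

section

namespace Pool.Agent.MP_c44838_an

open Matrix Filter Topology Cardinal

universe u

lemma mk_biUnion_finset_lt {I : Type u} {τ : Type*} (s : Finset τ) (Y : τ → Set I)
    (μ : Cardinal.{u}) (hμ : ℵ₀ ≤ μ) (h : ∀ t ∈ s, #(Y t) < μ) : #(⋃ t ∈ s, Y t) < μ := by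
  classical
  induction s using Finset.induction_on with
  | empty => simpa using aleph0_pos.trans_le hμ
  | insert a s _ ih =>
    rw [Finset.set_biUnion_insert]
    refine (mk_union_le _ _).trans_lt (add_lt_of_lt hμ (h a (by simp)) (ih fun t ht => ?_))
    exact h t (by simp [ht])

lemma exists_injective_transversal {I K : Type u} [Infinite K] {ρ : Type} [Fintype ρ]
    (X : ρ → Set I) (hX : ∀ r, #K ≤ #(X r)) :
    ∃ g : K × ρ → I, Function.Injective g ∧ ∀ k r, g (k, r) ∈ X r := by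
  classical
  let ty : I → Finset ρ := fun i => Finset.univ.filter (fun r => i ∈ X r)
  let Y : Finset ρ → Set I := fun τ => {i | ty i = τ}
  have h1 : ∀ r, ∃ τ, r ∈ τ ∧ #K ≤ #(Y τ) := by
    intro r
    by_contra h
    push Not at h
    have h2 := mk_biUnion_finset_lt (Finset.univ.filter (fun τ => r ∈ τ)) Y (#K) (aleph0_le_mk _)
      (fun τ hτ => h τ (Finset.mem_filter.mp hτ).2)
    have h3 : X r ⊆ ⋃ t ∈ Finset.univ.filter (fun τ => r ∈ τ), Y t := by
      intro i hi
      simp only [Set.mem_iUnion]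
      exact ⟨ty i, by simp [ty, hi], rfl⟩
    exact absurd ((hX r).trans (mk_le_mk_of_subset h3)) (not_le.mpr h2)
  choose τ hτ1 hτ2 using h1
  have hKρ : #(K × ρ) ≤ #K := by
    simp only [mk_prod, lift_uzero, mk_fintype, lift_natCast]
    exact (mul_le_mul' le_rfl ((natCast_lt_aleph0.le).trans (aleph0_le_mk K))).trans
      (mul_eq_self (aleph0_le_mk K)).le
  have h2 : ∀ σ : Finset ρ, ∃ e : K × ρ → I, #K ≤ #(Y σ) →
      Function.Injective e ∧ ∀ z, e z ∈ Y σ := by
    intro σ
    by_cases h : #K ≤ #(Y σ)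
    · obtain ⟨e⟩ := (Cardinal.le_def _ _).mp (hKρ.trans h)
      exact ⟨fun z => e z, fun _ => ⟨Subtype.val_injective.comp e.injective, fun z => (e z).2⟩⟩
    · by_cases hρ : Nonempty ρ
      · obtain ⟨r⟩ := hρ
        obtain ⟨e⟩ := (Cardinal.le_def _ _).mp (hKρ.trans (hX r))
        exact ⟨fun z => e z, fun h' => absurd h' h⟩
      · exact ⟨fun z => (hρ ⟨z.2⟩).elim, fun h' => absurd h' h⟩
  choose e he using h2
  refine ⟨fun z => e (τ z.2) z, ?_, ?_⟩
  · intro z w hzw
    have hz : ty (e (τ z.2) z) = τ z.2 := (he _ (hτ2 _)).2 z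
    have hw : ty (e (τ w.2) w) = τ w.2 := (he _ (hτ2 _)).2 w
    simp only at hzw
    have h3 : τ z.2 = τ w.2 := by rw [← hz, ← hw, hzw]
    rw [h3] at hzw
    exact (he _ (hτ2 _)).1 hzw
  · intro k r
    have hz : ty (e (τ r) (k, r)) = τ r := (he _ (hτ2 _)).2 _
    have := hτ1 r
    rw [← hz] at this
    simpa [ty] using this

lemma exists_comm_family {A : Type*} [CStarAlgebra A] {I K : Type u} [Infinite K] {m : I → ℕ}
    {ι : ∀ j, Matrix (Fin (m j)) (Fin (m j)) ℂ →⋆ₐ[ℂ] A} (hc : Comm ι) {n : ℕ} (hn : n ≠ 0)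
    (h : ∀ p : ℕ, p.Prime → p ∣ n → #K ≤ #{i | p ∣ m i}) :
    ∃ ψ : K → Matrix (Fin n) (Fin n) ℂ →⋆ₐ[ℂ] A, Comm (m := fun _ => n) ψ := by
  classical
  set l := n.primeFactorsList with hl
  obtain ⟨g, hg1, hg2⟩ := exists_injective_transversal (K := K)
    (fun r : Fin l.length => {i | l[r.1] ∣ m i})
    (fun r => h _ (Nat.prime_of_mem_primeFactorsList (List.getElem_mem r.2))
      (Nat.dvd_of_mem_primeFactorsList (List.getElem_mem r.2)))
  let F : K → Finset I := fun k => Finset.univ.image (fun r => g (k, r))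
  have hF : ∀ k, n ∣ ∏ i ∈ F k, m i := by
    intro k
    rw [Finset.prod_image (fun r _ r' _ hr => by simpa using hg1 hr)]
    have h1 : n = ∏ r : Fin l.length, l[r.1] := by
      rw [Fin.prod_univ_getElem, hl, Nat.prod_primeFactorsList hn]
    conv_lhs => rw [h1]
    exact Finset.prod_dvd_prod_of_dvd _ _ fun r _ => hg2 k r
  have h2 : ∀ k, ∃ ψ : Matrix (Fin n) (Fin n) ℂ →⋆ₐ[ℂ] A, ψ.range ≤ BF ι (F k) := by
    intro k
    obtain ⟨θ, hθ⟩ := exists_block hc (F k)
    obtain ⟨ψ, hψ⟩ := exists_of_dvd (hF k) θ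
    exact ⟨ψ, hθ ▸ hψ⟩
  choose ψ hψ using h2
  refine ⟨ψ, fun k k' hk a b => ?_⟩
  refine comm_BF (fun j hj y => BF_comm hc (hψ k ⟨a, rfl⟩) (fun hj' => hk ?_) y) (hψ k' ⟨b, rfl⟩)
  simp only [F, Finset.coe_image, Finset.coe_univ, Set.image_univ, Set.mem_range] at hj hj'
  obtain ⟨r, hr⟩ := hj
  obtain ⟨r', hr'⟩ := hj'
  have := hg1 (hr'.trans hr.symm)
  exact congrArg Prod.fst this

open scoped Matrix.Norms.L2Operator in
lemma norm_le_of_hom {P C : Type*} [CStarAlgebra P] [CStarAlgebra C] [Nontrivial C]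
    {J : Type*} {m : J → ℕ} {δ : ∀ j, Matrix (Fin (m j)) (Fin (m j)) ℂ →⋆ₐ[ℂ] P} (hc : Comm δ)
    (π : P →⋆ₐ[ℂ] C) {x : P} (hx : x ∈ (BF δ Set.univ).topologicalClosure) : ‖x‖ ≤ ‖π x‖ := by
  have hπ : Continuous π :=
    AddMonoidHomClass.continuous_of_bound π 1
      (fun a => by simpa using NonUnitalStarAlgHom.norm_apply_le π a)
  have h1 : IsClosed {x : P | ‖x‖ ≤ ‖π x‖} := isClosed_le (by fun_prop) (by fun_prop)
  refine closure_minimal (fun u hu => ?_) h1 hx
  obtain ⟨G, -, hu⟩ := exists_finset_of_mem hu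
  obtain ⟨θ, hθ⟩ := exists_block hc G
  rw [← hθ] at hu
  obtain ⟨z, rfl⟩ := hu
  have hne : Nonempty (Fin (∏ j ∈ G, m j)) :=
    Fintype.card_pos_iff.mp (Nat.pos_of_ne_zero (isMU_mu (π.comp θ)).card_ne_zero)
  have hinj : Function.Injective (π.comp θ) := RingHom.injective (π.comp θ).toAlgHom.toRingHom
  have h2 := NonUnitalStarAlgHom.norm_map (π.comp θ) hinj z
  have h3 := NonUnitalStarAlgHom.norm_apply_le θ z
  change ‖θ z‖ ≤ ‖π (θ z)‖
  exact h3.trans h2.ge

lemma exists_embedding {C A : Type*} [CStarAlgebra C] [CStarAlgebra A] [Nontrivial C]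
    [Nontrivial A] {J : Type*} {m : J → ℕ}
    {γ : ∀ j, Matrix (Fin (m j)) (Fin (m j)) ℂ →⋆ₐ[ℂ] C} (hγ : Comm γ)
    (hgen : (BF γ Set.univ).topologicalClosure = ⊤)
    {ψ : ∀ j, Matrix (Fin (m j)) (Fin (m j)) ℂ →⋆ₐ[ℂ] A} (hψ : Comm ψ) :
    ∃ Ψ : C →⋆ₐ[ℂ] A, Function.Injective Ψ := by
  let δ : ∀ j, Matrix (Fin (m j)) (Fin (m j)) ℂ →⋆ₐ[ℂ] C × A := fun j => (γ j).prod (ψ j)
  have hδ : Comm δ := fun i j hij a b => Prod.ext (hγ i j hij a b) (hψ i j hij a b)
  let E : StarSubalgebra ℂ (C × A) := (BF δ Set.univ).topologicalClosure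
  have hE : IsClosed (E : Set (C × A)) := StarSubalgebra.isClosed_topologicalClosure _
  let inst : CStarAlgebra E := StarSubalgebra.cstarAlgebra E
  let f : E →⋆ₐ[ℂ] C := (StarAlgHom.fst ℂ C A).comp E.subtype
  let g : E →⋆ₐ[ℂ] A := (StarAlgHom.snd ℂ C A).comp E.subtype
  have hf : Function.Injective f := by
    rw [injective_iff_map_eq_zero]
    intro x hx
    have h1 := norm_le_of_hom hδ (StarAlgHom.fst ℂ C A) x.2
    have h2 : StarAlgHom.fst ℂ C A x.1 = 0 := hx
    rw [h2, norm_zero] at h1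
    exact Subtype.ext (norm_le_zero_iff.mp h1)
  have hg : Function.Injective g := by
    rw [injective_iff_map_eq_zero]
    intro x hx
    have h1 := norm_le_of_hom hδ (StarAlgHom.snd ℂ C A) x.2
    have h2 : StarAlgHom.snd ℂ C A x.1 = 0 := hx
    rw [h2, norm_zero] at h1
    exact Subtype.ext (norm_le_zero_iff.mp h1)
  have hfs : Function.Surjective f := by
    have h1 : IsClosed (f.range : Set C) :=
      (NonUnitalStarAlgHom.isometry f hf).isClosedEmbedding.isClosed_range
    have h2 : BF γ Set.univ ≤ f.range := by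
      rw [BF_le_iff]
      intro j _ a
      exact ⟨⟨δ j a, StarSubalgebra.le_topologicalClosure _ (mem_BF (Set.mem_univ j) a)⟩, rfl⟩
    have h3 := StarSubalgebra.topologicalClosure_minimal h2 h1
    rw [hgen] at h3
    intro y
    exact h3 (StarSubalgebra.mem_top (x := y))
  let e := StarAlgEquiv.ofBijective f ⟨hf, hfs⟩
  exact ⟨g.comp (e.symm : C →⋆ₐ[ℂ] E), hg.comp e.symm.injective⟩

lemma hom_mem_closure {A B : Type*} [CStarAlgebra A] [CStarAlgebra B] {J : Type*} {m : J → ℕ}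
    {ι : ∀ j, Matrix (Fin (m j)) (Fin (m j)) ℂ →⋆ₐ[ℂ] A}
    (hgen : (BF ι Set.univ).topologicalClosure = ⊤) (f : A →⋆ₐ[ℂ] B) (R : StarSubalgebra ℂ B)
    (hR : IsClosed (R : Set B)) (h : ∀ j a, f (ι j a) ∈ R) (a : A) : f a ∈ R := by
  have hf : Continuous f :=
    AddMonoidHomClass.continuous_of_bound f 1
      (fun a => by simpa using NonUnitalStarAlgHom.norm_apply_le f a)
  have h1 : BF ι Set.univ ≤ R.comap f := BF_le_iff.mpr fun j _ a => h j a
  have h2 := StarSubalgebra.topologicalClosure_minimal h1 (hR.preimage hf)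
  rw [hgen] at h2
  exact h2 (StarSubalgebra.mem_top (x := a))

theorem main {I K K' : Type u} (m : I → ℕ) (n : ℕ) (hK : #K < #K') [Infinite K']
    (A : Type*) (D : Type*) (C : Type*) (B : Type*)
    [CStarAlgebra A] [CStarAlgebra D] [CStarAlgebra C] [CStarAlgebra B]
    (hA : IsMatrixTensorProduct m A) (hD : IsMatrixTensorProduct (fun _ : K => n) D)
    (hC : IsMatrixTensorProduct (fun _ : K' => n) C) (hB : IsCStarTensorProduct A D B)
    (h : ∃ Φ : C →⋆ₐ[ℂ] B, Function.Injective Φ) :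
    ∃ Ψ : C →⋆ₐ[ℂ] A, Function.Injective Ψ := by
  obtain ⟨hA0, ι, hι, hιg⟩ := hA
  obtain ⟨hD0, d, hd, hdg⟩ := hD
  obtain ⟨hC0, γ, hγ, hγg⟩ := hC
  obtain ⟨f, g, hfg, hBg⟩ := hB
  obtain ⟨Φ, hΦ⟩ := h
  rw [← BF_univ] at hιg hdg hγg
  have hB0 : Nontrivial B := hΦ.nontrivial
  let m' : I ⊕ K → ℕ := Sum.elim m (fun _ => n)
  let ι' : ∀ j, Matrix (Fin (m' j)) (Fin (m' j)) ℂ →⋆ₐ[ℂ] B := fun j =>
    Sum.rec (motive := fun j => Matrix (Fin (m' j)) (Fin (m' j)) ℂ →⋆ₐ[ℂ] B)
      (fun i => f.comp (ι i)) (fun k => g.comp (d k)) j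
  have hι' : Comm ι' := by
    rintro (i | k) (j | l) hij a b
    · change f (ι i a) * f (ι j b) = f (ι j b) * f (ι i a)
      rw [← map_mul, ← map_mul, hι i j (fun h => hij (congrArg _ h))]
    · exact hfg _ _
    · exact (hfg _ _).symm
    · change g (d k a) * g (d l b) = g (d l b) * g (d k a)
      rw [← map_mul, ← map_mul, hd k l (fun h => hij (congrArg _ h))]
  have hgen' : (BF ι' Set.univ).topologicalClosure = ⊤ := by
    rw [eq_top_iff, ← hBg]
    refine StarSubalgebra.topologicalClosure_minimal (StarAlgebra.adjoin_le ?_)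
      (StarSubalgebra.isClosed_topologicalClosure _)
    rintro _ (⟨a, rfl⟩ | ⟨a, rfl⟩)
    · refine hom_mem_closure hιg f _ (StarSubalgebra.isClosed_topologicalClosure _) ?_ a
      intro j a
      exact StarSubalgebra.le_topologicalClosure _
        (mem_BF (ι := ι') (Set.mem_univ (Sum.inl j)) a)
    · refine hom_mem_closure hdg g _ (StarSubalgebra.isClosed_topologicalClosure _) ?_ a
      intro j a
      exact StarSubalgebra.le_topologicalClosure _
        (mem_BF (ι := ι') (Set.mem_univ (Sum.inr j)) a)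
  have hφ : Comm (m := fun _ : K' => n) (fun k => Φ.comp (γ k)) := by
    intro k l hkl a b
    change Φ (γ k a) * Φ (γ l b) = Φ (γ l b) * Φ (γ k a)
    rw [← map_mul, ← map_mul, hγ k l hkl]
  have hn : n ≠ 0 := by
    simpa using (isMU_mu (γ (Classical.arbitrary K'))).card_ne_zero
  obtain ⟨ψ, hψ⟩ := exists_comm_family (K := K') (ι := ι) hι hn (by
    intro p hp hpn
    have h1 := card_le_of_comm hι' hgen' _ hφ hp hpn
    have h2 : #{j | p ∣ m' j} ≤ #{i | p ∣ m i} + #K := by
      have h3 : {j | p ∣ m' j} ⊆ Sum.inl '' {i | p ∣ m i} ∪ Set.range Sum.inr := by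
        rintro (i | k) hj
        · exact Or.inl ⟨i, hj, rfl⟩
        · exact Or.inr ⟨k, rfl⟩
      exact (mk_le_mk_of_subset h3).trans ((mk_union_le _ _).trans
        (add_le_add mk_image_le mk_range_le))
    by_contra h4
    push Not at h4
    exact absurd (h1.trans h2) (not_le.mpr (add_lt_of_lt (aleph0_le_mk _) h4 hK)))
  exact exists_embedding hγ hγg hψ

end Pool.Agent.MP_c44838_an

end
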